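import Pool.Agent.TH49.Spl.Pot

set_option autoImplicit false

/-! The access lemma for splaying with nonnegative weights: every subtree gets the additional weight
`δ`, where `2 δ` is at most the weight of the requested key. -/

namespace Pool.Agent.Q331.SPL

open Pool.Agent.H581R2.Splay Pool.Agent.TH49.Spl Tr

/-- the potential -/
noncomputable def ps (w : ℕ → ℝ) (δ : ℝ) : Tr → ℝ
  | nil => 0
  | node a l r => Real.logb 2 (wt w (node a l r) + δ) + ps w δ l + ps w δ r

theorem wn {w : ℕ → ℝ} (hw : ∀ a, 0 ≤ w a) (t : Tr) : 0 ≤ wt w t := by
  induction t with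
  | nil => simp [wt]
  | node a l r ihl ihr => simp only [wt]; have := hw a; linarith

theorem sp {w : ℕ → ℝ} {δ : ℝ} (hδ : 0 < δ) (hw : ∀ a, 0 ≤ w a) (t : Tr) : 0 < wt w t + δ := by
  have := wn hw t; linarith

theorem log_ineq' {δ a b c : ℝ} (hδ : 0 < δ) (ha : 0 < a) (hb : 0 < b) (hc : a + b ≤ c + δ)
    (h3 : 3 * δ ≤ c) : Real.logb 2 a + Real.logb 2 b + 1 ≤ 2 * Real.logb 2 c := by
  have hcp : 0 < c := by linarith
  have h0 : a + b ≤ 4 / 3 * c := by linarith
  have h1 : 2 * (a * b) ≤ c * c := by nlinarith [sq_nonneg (a - b), mul_pos hcp hcp]
  have h2 : Real.logb 2 (2 * (a * b)) ≤ Real.logb 2 (c * c) :=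
    Real.logb_le_logb_of_le (by norm_num) (by positivity) h1
  rw [Real.logb_mul (by norm_num) (by positivity), Real.logb_mul ha.ne' hb.ne',
    Real.logb_mul hcp.ne' hcp.ne', Real.logb_self_eq_one (by norm_num)] at h2
  linarith

theorem zz' {δ x' y' z' x y : ℝ} {lx ly lz lx' ly' lz' : ℝ} (hδ : 0 < δ) (hx : 0 < x) (hz' : 0 < z')
    (hxz : x + z' ≤ x' + δ) (h3 : 3 * δ ≤ x') (hy' : 0 < y') (hy'x : y' ≤ x') (hxy : x ≤ y)
    (e1 : lx = Real.logb 2 x) (e2 : lz' = Real.logb 2 z') (e3 : lx' = Real.logb 2 x')
    (e4 : ly' = Real.logb 2 y') (e5 : ly = Real.logb 2 y) (e6 : lz = lx') :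
    1 + (lx' + ly' + lz') ≤ (lx + ly + lz) + 3 * (lx' - lx) := by
  have h1 := log_ineq' hδ hx hz' hxz h3
  have h2 := logb_mono hy' hy'x
  have h3 := logb_mono hx hxy
  subst e1 e2 e3 e4 e5 e6
  linarith

theorem ps_plug_congr {w : ℕ → ℝ} {δ : ℝ} (fs : List Fr) (t t' : Tr) (h : wt w t = wt w t') :
    ps w δ (plug fs t) - ps w δ t = ps w δ (plug fs t') - ps w δ t' ∧
      wt w (plug fs t) = wt w (plug fs t') := by
  induction fs generalizing t t' with
  | nil => simp [plug, h]
  | cons g fs ih =>
    cases g with
    | inL a r =>
      have := ih (plug1 (Fr.inL a r) t) (plug1 (Fr.inL a r) t') (by simp only [plug1, wt, h])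
      refine ⟨?_, this.2⟩
      have h1 := this.1
      simp only [plug]
      simp only [plug1, ps, wt, h] at h1 ⊢
      linarith
    | inR a l =>
      have := ih (plug1 (Fr.inR a l) t) (plug1 (Fr.inR a l) t') (by simp only [plug1, wt, h])
      refine ⟨?_, this.2⟩
      have h1 := this.1
      simp only [plug]
      simp only [plug1, ps, wt, h] at h1 ⊢
      linarith

theorem climb_s {w : ℕ → ℝ} {δ : ℝ} (hδ : 0 < δ) (hw : ∀ a, 0 ≤ w a) (x : ℕ) (hx : 2 * δ ≤ w x) :
    ∀ (fs : List Fr) (l r : Tr),
    keys (climb x fs l r) = keys (plug fs (node x l r)) ∧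
    wt w (climb x fs l r) = wt w (plug fs (node x l r)) ∧
    (fs.length : ℝ) + 2 * ps w δ (climb x fs l r) ≤
      2 * ps w δ (plug fs (node x l r)) +
        6 * (Real.logb 2 (wt w (plug fs (node x l r)) + δ) -
          Real.logb 2 (wt w (node x l r) + δ)) + 1 := by
  intro fs
  induction hn : fs.length using Nat.strong_induction_on generalizing fs with
  | _ n ih =>
    intro l r
    match fs, hn with
    | [], hn =>
      subst hn
      simp [climb, plug]
    | [Fr.inL y c], hn =>
      subst hn
      have e : wt w (node x l (node y r c)) = wt w (node y (node x l r) c) := by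
        simp only [wt]; ring
      refine ⟨by simp [climb, plug, plug1, keys], ?_, ?_⟩
      · simp only [climb, plug, plug1]; exact e
      simp only [climb, plug, plug1, List.length_singleton]
      have a1 := logb_mono (sp hδ hw (node x l r)) (show wt w (node x l r) + δ ≤ wt w (node y (node x l r) c) + δ by
        have := hw y; have := wn hw c; simp only [wt]; linarith)
      have a2 := logb_mono (sp hδ hw (node y r c)) (show wt w (node y r c) + δ ≤ wt w (node x l (node y r c)) + δ by
        have := hw x; have := wn hw l; simp only [wt]; linarith)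
      rw [e] at a2
      simp only [ps]
      rw [e]
      push_cast
      linarith
    | [Fr.inR y c], hn =>
      subst hn
      have e : wt w (node x (node y c l) r) = wt w (node y c (node x l r)) := by
        simp only [wt]; ring
      refine ⟨by simp [climb, plug, plug1, keys], ?_, ?_⟩
      · simp only [climb, plug, plug1]; exact e
      simp only [climb, plug, plug1, List.length_singleton]
      have a1 := logb_mono (sp hδ hw (node x l r)) (show wt w (node x l r) + δ ≤ wt w (node y c (node x l r)) + δ by
        have := hw y; have := wn hw c; simp only [wt]; linarith)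
      have a2 := logb_mono (sp hδ hw (node y c l)) (show wt w (node y c l) + δ ≤ wt w (node x (node y c l) r) + δ by
        have := hw x; have := wn hw r; simp only [wt]; linarith)
      rw [e] at a2
      simp only [ps]
      rw [e]
      push_cast
      linarith
    | Fr.inL y c :: Fr.inL z d :: fs, hn =>
      simp only [List.length_cons] at hn
      have hp : plug (Fr.inL y c :: Fr.inL z d :: fs) (node x l r) =
          plug fs (node z (node y (node x l r) c) d) := rfl
      have hw2 : wt w (node x l (node y r (node z c d))) =
          wt w (node z (node y (node x l r) c) d) := by simp only [wt]; ring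
      have hk : keys (node x l (node y r (node z c d))) =
          keys (node z (node y (node x l r) c) d) := by simp [keys]
      obtain ⟨i1, i2, i3⟩ := ih fs.length (by omega) fs rfl l (node y r (node z c d))
      obtain ⟨p1, p2⟩ := ps_plug_congr (w := w) (δ := δ) fs _ _ hw2
      rw [hp]
      simp only [climb]
      refine ⟨by rw [i1, keys_plug, keys_plug, hk], by rw [i2, p2], ?_⟩
      have st := zz' (δ := δ) (x := wt w (node x l r) + δ) (y := wt w (node y (node x l r) c) + δ)
        (x' := wt w (node x l (node y r (node z c d))) + δ) (y' := wt w (node y r (node z c d)) + δ)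
        (z' := wt w (node z c d) + δ) hδ (sp hδ hw _) (sp hδ hw _)
        (by have := hw y; simp only [wt]; linarith)
        (by have := hw y; have := hw z; have := wn hw l; have := wn hw r; have := wn hw c
            have := wn hw d; simp only [wt]; linarith) (sp hδ hw _)
        (by have := hw x; have := wn hw l; simp only [wt]; linarith)
        (by have := hw y; have := wn hw c; simp only [wt]; linarith) rfl rfl rfl rfl rfl rfl
      have q1 : ps w δ (node x l (node y r (node z c d))) = Real.logb 2 (wt w (node x l (node y r (node z c d))) + δ) + ps w δ l +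
          (Real.logb 2 (wt w (node y r (node z c d)) + δ) + ps w δ r +
            (Real.logb 2 (wt w (node z c d) + δ) + ps w δ c + ps w δ d)) := rfl
      have q2 : ps w δ (node z (node y (node x l r) c) d) = Real.logb 2 (wt w (node z (node y (node x l r) c) d) + δ) +
          (Real.logb 2 (wt w (node y (node x l r) c) + δ) +
            (Real.logb 2 (wt w (node x l r) + δ) + ps w δ l + ps w δ r) + ps w δ c) + ps w δ d := rfl
      rw [p2] at i3
      rw [hw2] at i3 st q1
      rw [q1, q2] at p1
      rw [← hn]
      push_cast
      linarith
    | Fr.inR y c :: Fr.inR z d :: fs, hn =>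
      simp only [List.length_cons] at hn
      have hp : plug (Fr.inR y c :: Fr.inR z d :: fs) (node x l r) =
          plug fs (node z d (node y c (node x l r))) := rfl
      have hw2 : wt w (node x (node y (node z d c) l) r) =
          wt w (node z d (node y c (node x l r))) := by simp only [wt]; ring
      have hk : keys (node x (node y (node z d c) l) r) =
          keys (node z d (node y c (node x l r))) := by simp [keys]
      obtain ⟨i1, i2, i3⟩ := ih fs.length (by omega) fs rfl (node y (node z d c) l) r
      obtain ⟨p1, p2⟩ := ps_plug_congr (w := w) (δ := δ) fs _ _ hw2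
      rw [hp]
      simp only [climb]
      refine ⟨by rw [i1, keys_plug, keys_plug, hk], by rw [i2, p2], ?_⟩
      have st := zz' (δ := δ) (x := wt w (node x l r) + δ) (y := wt w (node y c (node x l r)) + δ)
        (x' := wt w (node x (node y (node z d c) l) r) + δ) (y' := wt w (node y (node z d c) l) + δ)
        (z' := wt w (node z d c) + δ) hδ (sp hδ hw _) (sp hδ hw _)
        (by have := hw y; simp only [wt]; linarith)
        (by have := hw y; have := hw z; have := wn hw l; have := wn hw r; have := wn hw c
            have := wn hw d; simp only [wt]; linarith) (sp hδ hw _)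
        (by have := hw x; have := wn hw r; simp only [wt]; linarith)
        (by have := hw y; have := wn hw c; simp only [wt]; linarith) rfl rfl rfl rfl rfl rfl
      have q1 : ps w δ (node x (node y (node z d c) l) r) = Real.logb 2 (wt w (node x (node y (node z d c) l) r) + δ) +
          (Real.logb 2 (wt w (node y (node z d c) l) + δ) +
            (Real.logb 2 (wt w (node z d c) + δ) + ps w δ d + ps w δ c) + ps w δ l) + ps w δ r := rfl
      have q2 : ps w δ (node z d (node y c (node x l r))) = Real.logb 2 (wt w (node z d (node y c (node x l r))) + δ) + ps w δ d +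
          (Real.logb 2 (wt w (node y c (node x l r)) + δ) + ps w δ c +
            (Real.logb 2 (wt w (node x l r) + δ) + ps w δ l + ps w δ r)) := rfl
      rw [p2] at i3
      rw [hw2] at i3 st q1
      rw [q1, q2] at p1
      rw [← hn]
      push_cast
      linarith
    | Fr.inL y c :: Fr.inR z d :: fs, hn =>
      simp only [List.length_cons] at hn
      have hp : plug (Fr.inL y c :: Fr.inR z d :: fs) (node x l r) =
          plug fs (node z d (node y (node x l r) c)) := rfl
      have hw2 : wt w (node x (node z d l) (node y r c)) =
          wt w (node z d (node y (node x l r) c)) := by simp only [wt]; ring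
      have hk : keys (node x (node z d l) (node y r c)) =
          keys (node z d (node y (node x l r) c)) := by simp [keys]
      obtain ⟨i1, i2, i3⟩ := ih fs.length (by omega) fs rfl (node z d l) (node y r c)
      obtain ⟨p1, p2⟩ := ps_plug_congr (w := w) (δ := δ) fs _ _ hw2
      rw [hp]
      simp only [climb]
      refine ⟨by rw [i1, keys_plug, keys_plug, hk], by rw [i2, p2], ?_⟩
      have st := log_ineq' (δ := δ) hδ (sp hδ hw (node z d l)) (sp hδ hw (node y r c))
        (c := wt w (node x (node z d l) (node y r c)) + δ) (by have := hw x; simp only [wt]; linarith)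
        (by have := hw y; have := hw z; have := wn hw l; have := wn hw r; have := wn hw c
            have := wn hw d; simp only [wt]; linarith)
      have m1 := logb_mono (sp hδ hw (node x l r)) (show wt w (node x l r) + δ ≤ wt w (node y (node x l r) c) + δ by
        have := hw y; have := wn hw c; simp only [wt]; linarith)
      have m2 := logb_mono (sp hδ hw (node x l r))
        (show wt w (node x l r) + δ ≤ wt w (node z d (node y (node x l r) c)) + δ by
        have := hw y; have := hw z; have := wn hw c; have := wn hw d
        simp only [wt]; linarith)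
      have q1 : ps w δ (node x (node z d l) (node y r c)) = Real.logb 2 (wt w (node x (node z d l) (node y r c)) + δ) +
          (Real.logb 2 (wt w (node z d l) + δ) + ps w δ d + ps w δ l) +
          (Real.logb 2 (wt w (node y r c) + δ) + ps w δ r + ps w δ c) := rfl
      have q2 : ps w δ (node z d (node y (node x l r) c)) = Real.logb 2 (wt w (node z d (node y (node x l r) c)) + δ) + ps w δ d +
          (Real.logb 2 (wt w (node y (node x l r) c) + δ) +
            (Real.logb 2 (wt w (node x l r) + δ) + ps w δ l + ps w δ r) + ps w δ c) := rfl
      rw [p2] at i3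
      rw [hw2] at i3 st q1
      rw [q1, q2] at p1
      rw [← hn]
      push_cast
      linarith
    | Fr.inR y c :: Fr.inL z d :: fs, hn =>
      simp only [List.length_cons] at hn
      have hp : plug (Fr.inR y c :: Fr.inL z d :: fs) (node x l r) =
          plug fs (node z (node y c (node x l r)) d) := rfl
      have hw2 : wt w (node x (node y c l) (node z r d)) =
          wt w (node z (node y c (node x l r)) d) := by simp only [wt]; ring
      have hk : keys (node x (node y c l) (node z r d)) =
          keys (node z (node y c (node x l r)) d) := by simp [keys]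
      obtain ⟨i1, i2, i3⟩ := ih fs.length (by omega) fs rfl (node y c l) (node z r d)
      obtain ⟨p1, p2⟩ := ps_plug_congr (w := w) (δ := δ) fs _ _ hw2
      rw [hp]
      simp only [climb]
      refine ⟨by rw [i1, keys_plug, keys_plug, hk], by rw [i2, p2], ?_⟩
      have st := log_ineq' (δ := δ) hδ (sp hδ hw (node y c l)) (sp hδ hw (node z r d))
        (c := wt w (node x (node y c l) (node z r d)) + δ) (by have := hw x; simp only [wt]; linarith)
        (by have := hw y; have := hw z; have := wn hw l; have := wn hw r; have := wn hw c
            have := wn hw d; simp only [wt]; linarith)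
      have m1 := logb_mono (sp hδ hw (node x l r)) (show wt w (node x l r) + δ ≤ wt w (node y c (node x l r)) + δ by
        have := hw y; have := wn hw c; simp only [wt]; linarith)
      have m2 := logb_mono (sp hδ hw (node x l r))
        (show wt w (node x l r) + δ ≤ wt w (node z (node y c (node x l r)) d) + δ by
        have := hw y; have := hw z; have := wn hw c; have := wn hw d
        simp only [wt]; linarith)
      have q1 : ps w δ (node x (node y c l) (node z r d)) = Real.logb 2 (wt w (node x (node y c l) (node z r d)) + δ) +
          (Real.logb 2 (wt w (node y c l) + δ) + ps w δ c + ps w δ l) +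
          (Real.logb 2 (wt w (node z r d) + δ) + ps w δ r + ps w δ d) := rfl
      have q2 : ps w δ (node z (node y c (node x l r)) d) = Real.logb 2 (wt w (node z (node y c (node x l r)) d) + δ) +
          (Real.logb 2 (wt w (node y c (node x l r)) + δ) + ps w δ c +
            (Real.logb 2 (wt w (node x l r) + δ) + ps w δ l + ps w δ r)) + ps w δ d := rfl
      rw [p2] at i3
      rw [hw2] at i3 st q1
      rw [q1, q2] at p1
      rw [← hn]
      push_cast
      linarith

/-- the access lemma -/
theorem sacc {w : ℕ → ℝ} {δ : ℝ} (hδ : 0 < δ) (hw : ∀ a, 0 ≤ w a) {x : ℕ} (hwx : 2 * δ ≤ w x) {t : Tr}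
    (hb : IsBST t) (hx : x ∈ keys t) :
    keys (splay x t) = keys t ∧ wt w (splay x t) = wt w t ∧
    (dep x t : ℝ) + 2 * ps w δ (splay x t) ≤
      2 * ps w δ t + 6 * (Real.logb 2 (wt w t + δ) - Real.logb 2 (w x)) + 1 := by
  obtain ⟨h1, h2⟩ := locate_spec x t [] hb hx
  have h1' : plug (locate x t []).1 (node x (locate x t []).2.1 (locate x t []).2.2) = t := h1
  have h2' : (locate x t []).1.length = dep x t := by simpa using h2
  obtain ⟨c1, c2, c3⟩ := climb_s hδ hw x hwx (locate x t []).1 (locate x t []).2.1
    (locate x t []).2.2
  rw [h1'] at c1 c2 c3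
  rw [h2'] at c3
  refine ⟨c1, c2, ?_⟩
  have m := logb_mono (show 0 < w x by linarith)
    (show w x ≤ wt w (node x (locate x t []).2.1 (locate x t []).2.2) + δ by
      have := wn hw (locate x t []).2.1; have := wn hw (locate x t []).2.2
      simp only [wt]; linarith)
  unfold splay
  linarith

end Pool.Agent.Q331.SPL
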