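import Pool.Agent.Q331.SPL.Acc
import Pool.Agent.Y232.SP.WS
import Pool.Agent.TH22.SP.Clos

set_option autoImplicit false

/-! The working set bound for splaying with the additive term reduced to the touched part of the
initial tree. -/

namespace Pool.Agent.Q331.SPL

open Pool.Agent.H581R2.Splay Pool.Agent.TH49.Spl Pool.Agent.Y395.SP Pool.Agent.TH22.SP Tr

/-- the weights: `E` is the set of all requested keys, `h` the history -/
noncomputable def wE (E : Finset ℕ) (h : List ℕ) (a : ℕ) : ℝ :=
  if a ∈ E then (if a ∈ h then 1 / ((ws h a : ℝ) + 1) ^ 2 else 1 / (E.card : ℝ) ^ 2) else 0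

/-- the additional weight -/
noncomputable def dE (E : Finset ℕ) : ℝ := 1 / (2 * (E.card : ℝ) ^ 2)

theorem wE_nonneg (E : Finset ℕ) (h : List ℕ) (a : ℕ) : 0 ≤ wE E h a := by
  unfold wE
  split_ifs <;> positivity

theorem ws_lt' {E : Finset ℕ} {h : List ℕ} {a : ℕ} (hE : ∀ y ∈ h, y ∈ E) (ha : a ∈ E) :
    ws h a + 1 ≤ E.card := by
  have h1 : insert a (Pool.Agent.Y232.SP.WS.tw h a) ⊆ E := by
    intro y hy
    rcases Finset.mem_insert.1 hy with h2 | h2
    · rw [h2]; exact ha
    · exact hE y (Pool.Agent.Y232.SP.WS.tw_sub h a y h2)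
  have h2 := Finset.card_le_card h1
  rw [Finset.card_insert_of_notMem (Pool.Agent.Y232.SP.WS.tw_self h a)] at h2
  exact h2

theorem wE_lower {E : Finset ℕ} {h : List ℕ} (hE : ∀ y ∈ h, y ∈ E) {a : ℕ} (ha : a ∈ E) :
    2 * dE E ≤ wE E h a := by
  have hk : 0 < E.card := Finset.card_pos.2 ⟨a, ha⟩
  have hk' : (0 : ℝ) < E.card := by exact_mod_cast hk
  have e : 2 * dE E = 1 / (E.card : ℝ) ^ 2 := by
    unfold dE; field_simp
  rw [e]
  unfold wE
  rw [if_pos ha]
  split_ifs with hh
  · have h2 : ((ws h a : ℝ) + 1) ≤ E.card := by exact_mod_cast ws_lt' hE ha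
    apply one_div_le_one_div_of_le (by positivity)
    exact pow_le_pow_left₀ (by positivity) h2 2
  · exact le_refl _

theorem wE_total (E : Finset ℕ) (h : List ℕ) {S : Tr} (hb : IsBST S) : wt (wE E h) S ≤ 3 := by
  have nod : (keys S).Nodup := List.Pairwise.imp (fun {a b} h => by omega) hb
  rw [wt_eq, ← List.sum_toFinset _ nod]
  have h1 : ∀ a ∈ (keys S).toFinset, wE E h a ≤
      (if a ∈ h then 1 / ((ws h a : ℝ) + 1) ^ 2 else 0) +
        (if a ∈ E then 1 / (E.card : ℝ) ^ 2 else 0) := by
    intro a _
    unfold wE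
    split_ifs
    · have : (0 : ℝ) ≤ 1 / (E.card : ℝ) ^ 2 := by positivity
      linarith
    · linarith
    · have : (0 : ℝ) ≤ 1 / ((ws h a : ℝ) + 1) ^ 2 := by positivity
      linarith
    · simp
  refine le_trans (Finset.sum_le_sum h1) ?_
  rw [Finset.sum_add_distrib, ← Finset.sum_filter, ← Finset.sum_filter]
  have h2 : ∑ a ∈ (keys S).toFinset with a ∈ E, 1 / (E.card : ℝ) ^ 2 ≤ 1 := by
    rcases Nat.eq_zero_or_pos E.card with h0 | h0
    · rw [h0]; simp
    · have h0' : (1 : ℝ) ≤ E.card := by exact_mod_cast h0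
      rw [Finset.sum_const, nsmul_eq_mul]
      have h3 : (((keys S).toFinset.filter (fun a => a ∈ E)).card : ℝ) ≤ E.card := by
        exact_mod_cast Finset.card_le_card (fun a ha => (Finset.mem_filter.1 ha).2)
      calc (((keys S).toFinset.filter (fun a => a ∈ E)).card : ℝ) * (1 / (E.card : ℝ) ^ 2)
          ≤ (E.card : ℝ) * (1 / (E.card : ℝ) ^ 2) := mul_le_mul_of_nonneg_right h3 (by positivity)
        _ = 1 / E.card := by field_simp
        _ ≤ 1 := by rw [div_le_one (by linarith)]; exact h0'
  have h3 : ∑ a ∈ (keys S).toFinset with a ∈ h, 1 / ((ws h a : ℝ) + 1) ^ 2 ≤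
      ∑ a ∈ h.toFinset, 1 / ((ws h a : ℝ) + 1) ^ 2 := by
    refine Finset.sum_le_sum_of_subset_of_nonneg ?_ (fun _ _ _ => by positivity)
    intro a ha
    rw [Finset.mem_filter] at ha
    rw [List.mem_toFinset]
    exact ha.2
  have h4 : ∑ a ∈ h.toFinset, 1 / ((ws h a : ℝ) + 1) ^ 2 =
      ∑ k ∈ h.toFinset.image (ws h), 1 / ((k : ℝ) + 1) ^ 2 :=
    (Finset.sum_image (f := fun k : ℕ => 1 / ((k : ℝ) + 1) ^ 2)
      (fun a ha b hb hab => Pool.Agent.Y232.SP.WS.ws_inj h ha hb hab)).symm
  have h5 : ∑ k ∈ h.toFinset.image (ws h), 1 / ((k : ℝ) + 1) ^ 2 ≤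
      ∑ k ∈ Finset.range (h.length + 1), 1 / ((k : ℝ) + 1) ^ 2 := by
    refine Finset.sum_le_sum_of_subset_of_nonneg ?_ (fun _ _ _ => by positivity)
    intro k hk
    rw [Finset.mem_image] at hk
    obtain ⟨a, -, rfl⟩ := hk
    rw [Finset.mem_range, Nat.lt_succ_iff, Pool.Agent.Y232.SP.WS.ws_eq]
    refine le_trans (Finset.card_le_card (fun y hy => ?_)) (List.toFinset_card_le h)
    rw [List.mem_toFinset]
    exact Pool.Agent.Y232.SP.WS.tw_sub h a y hy
  have h6 := Pool.Agent.Y232.SP.WS.sum_sq h.length
  have h7 : (0 : ℝ) < 1 / ((h.length : ℝ) + 1) := by positivity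
  linarith

/-- the potential without the root -/
noncomputable def pr0 (w : ℕ → ℝ) (δ : ℝ) : Tr → ℝ
  | nil => 0
  | node _ l r => ps w δ l + ps w δ r

theorem wt_le {w w' : ℕ → ℝ} (t : Tr) (h : ∀ a ∈ keys t, w' a ≤ w a) : wt w' t ≤ wt w t := by
  induction t with
  | nil => simp [wt]
  | node a l r ihl ihr =>
    have h1 := ihl (fun b hb => h b (by simp [keys, hb]))
    have h2 := ihr (fun b hb => h b (by simp [keys, hb]))
    have h3 := h a (by simp [keys])
    simp only [wt]
    linarith

theorem ps_le {w w' : ℕ → ℝ} {δ : ℝ} (hδ : 0 < δ) (hw' : ∀ a, 0 ≤ w' a) (t : Tr)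
    (h : ∀ a ∈ keys t, w' a ≤ w a) : ps w' δ t ≤ ps w δ t := by
  induction t with
  | nil => simp [ps]
  | node a l r ihl ihr =>
    have h1 := ihl (fun b hb => h b (by simp [keys, hb]))
    have h2 := ihr (fun b hb => h b (by simp [keys, hb]))
    have h3 := logb_mono (sp hδ hw' (node a l r)) (by have := wt_le (node a l r) h; linarith :
      wt w' (node a l r) + δ ≤ wt w (node a l r) + δ)
    simp only [ps]
    linarith

/-- one request -/
theorem step {w w' : ℕ → ℝ} {δ : ℝ} (hδ : 0 < δ) (hw : ∀ a, 0 ≤ w a) (hw' : ∀ a, 0 ≤ w' a) {S : Tr}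
    {x : ℕ} (hwx : 2 * δ ≤ w x) (hb : IsBST S) (hx : x ∈ keys S) {B : ℝ}
    (hB : Real.logb 2 (wt w S + δ) ≤ B) (hmono : ∀ a, a ≠ x → w' a ≤ w a) :
    (1 + dep x S : ℝ) + 2 * pr0 w' δ (splay x S) ≤
      2 * pr0 w δ S + 2 + 6 * (B - Real.logb 2 (w x)) := by
  obtain ⟨k1, k2, k3⟩ := sacc hδ hw hwx hb hx
  have hb' : IsBST (splay x S) := by unfold IsBST; rw [k1]; exact hb
  obtain ⟨l, r, hlr⟩ := splay_root x S
  have hS : ∃ a l0 r0, S = node a l0 r0 := by
    cases hSc : S with
    | nil => rw [hSc] at hx; simp [keys] at hx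
    | node a l0 r0 => exact ⟨a, l0, r0, rfl⟩
  obtain ⟨a, l0, r0, hS⟩ := hS
  have p1 : ps w δ S = Real.logb 2 (wt w S + δ) + pr0 w δ S := by
    rw [hS]; simp only [ps, pr0]; ring
  have p2 : ps w δ (splay x S) = Real.logb 2 (wt w S + δ) + pr0 w δ (splay x S) := by
    rw [← k2, hlr]; simp only [ps, pr0]; ring
  have hm : pr0 w' δ (splay x S) ≤ pr0 w δ (splay x S) := by
    rw [hlr]
    rw [hlr] at hb'
    simp only [IsBST, keys] at hb'
    rw [List.pairwise_append, List.pairwise_cons] at hb'
    obtain ⟨hl, ⟨har, hr⟩, hlr'⟩ := hb'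
    have q1 : ps w' δ l ≤ ps w δ l := ps_le hδ hw' l (fun b hb => hmono b (by
      have := hlr' b hb x (by simp); omega))
    have q2 : ps w' δ r ≤ ps w δ r := ps_le hδ hw' r (fun b hb => hmono b (by
      have := har b hb; omega))
    simp only [pr0]
    linarith
  rw [p1, p2] at k3
  linarith

/-- the tree after the requests -/
def after (S : Tr) : List ℕ → Tr
  | [] => S
  | x :: X => after (splay x S) X

theorem run {E : Finset ℕ} (X : List ℕ) : ∀ (S : Tr) (h : List ℕ), IsBST S → (∀ y ∈ h, y ∈ E) →
    (∀ x ∈ X, x ∈ E) → (∀ x ∈ X, x ∈ keys S) →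
      (costSplay S X : ℝ) + 2 * pr0 (wE E (X.reverse ++ h)) (dE E) (after S X) ≤
        2 * pr0 (wE E h) (dE E) S + 14 * X.length + 12 * wsum h X +
          12 * (X.toFinset \ h.toFinset).card * Real.logb 2 E.card := by
  induction X with
  | nil =>
    intro S h _ _ _ _
    simp [costSplay, after, wsum]
  | cons x X ih =>
    intro S h hb hh hX hS
    have hxE : x ∈ E := hX x (by simp)
    have hxS : x ∈ keys S := hS x (by simp)
    have hk : 0 < E.card := Finset.card_pos.2 ⟨x, hxE⟩
    have hk' : (1 : ℝ) ≤ E.card := by exact_mod_cast hk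
    have hd : 0 < dE E := by unfold dE; positivity
    have hL : (0 : ℝ) ≤ Real.logb 2 E.card := Real.logb_nonneg (by norm_num) hk'
    obtain ⟨k1, -, -⟩ := sacc hd (wE_nonneg E h) (wE_lower hh hxE) hb hxS
    have hb' : IsBST (splay x S) := by unfold IsBST; rw [k1]; exact hb
    have hi := ih (splay x S) (x :: h) hb' (by
      intro y hy
      rcases List.mem_cons.1 hy with h1 | h1
      · rw [h1]; exact hxE
      · exact hh y h1) (fun y hy => hX y (by simp [hy])) (fun y hy => by
        rw [k1]; exact hS y (by simp [hy]))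
    have hlog : Real.logb 2 (wt (wE E h) S + dE E) ≤ 2 := by
      have h0 : dE E ≤ 1 := by
        unfold dE
        rw [div_le_one (by positivity)]
        nlinarith
      have h1 : Real.logb 2 (wt (wE E h) S + dE E) ≤ Real.logb 2 4 :=
        logb_mono (sp hd (wE_nonneg E h) S) (by have := wE_total E h hb; linarith)
      exact h1.trans Pool.Agent.Y232.SP.WS.logb_four.le
    have hstep := step (w := wE E h) (w' := wE E (x :: h)) hd (wE_nonneg _ _) (wE_nonneg _ _)
      (wE_lower hh hxE) hb hxS hlog (by
        intro a ha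
        unfold wE
        by_cases haE : a ∈ E
        · rw [if_pos haE, if_pos haE]
          by_cases hc : a ∈ h
          · rw [if_pos hc, if_pos (List.mem_cons_of_mem _ hc)]
            have h1 : ws h a ≤ ws (x :: h) a := by
              rw [Pool.Agent.Y232.SP.WS.ws_eq, Pool.Agent.Y232.SP.WS.ws_eq,
                Pool.Agent.Y232.SP.WS.tw_cons_ne h (Ne.symm ha)]
              exact Finset.card_le_card (Finset.subset_insert _ _)
            have h2 : (ws h a : ℝ) ≤ ws (x :: h) a := by exact_mod_cast h1
            apply one_div_le_one_div_of_le (by positivity)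
            exact pow_le_pow_left₀ (by positivity) (by linarith) 2
          · have hc' : a ∉ x :: h := by
              rw [List.mem_cons]; tauto
            rw [if_neg hc, if_neg hc']
        · rw [if_neg haE, if_neg haE])
    have hrev : (x :: X).reverse ++ h = X.reverse ++ (x :: h) := by simp
    have hws : (0 : ℝ) ≤ Real.logb 2 ((ws h x : ℝ) + 1) := by
      apply Real.logb_nonneg (by norm_num)
      have : (0 : ℝ) ≤ ws h x := by positivity
      linarith
    rw [hrev]
    simp only [costSplay, after, wsum, List.length_cons, List.toFinset_cons]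
    simp only [List.toFinset_cons] at hi
    push_cast
    by_cases hxA : x ∈ h
    · have hxA' : x ∈ h.toFinset := List.mem_toFinset.2 hxA
      have e1 : insert x h.toFinset = h.toFinset := Finset.insert_eq_of_mem hxA'
      rw [e1] at hi
      have e2 : (insert x X.toFinset) \ h.toFinset = X.toFinset \ h.toFinset :=
        Finset.insert_sdiff_of_mem _ hxA'
      rw [e2]
      have e3 : Real.logb 2 (wE E h x) = -(2 * Real.logb 2 ((ws h x : ℝ) + 1)) := by
        unfold wE
        rw [if_pos hxE, if_pos hxA, Pool.Agent.Y232.SP.WS.logb_inv_sq (by positivity)]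
      rw [e3] at hstep
      linarith
    · have hxA' : x ∉ h.toFinset := fun hc => hxA (List.mem_toFinset.1 hc)
      have e2 : ((insert x X.toFinset) \ h.toFinset).card =
          (X.toFinset \ insert x h.toFinset).card + 1 := by
        rw [Finset.insert_sdiff_of_notMem _ hxA']
        have : insert x (X.toFinset \ h.toFinset) = insert x (X.toFinset \ insert x h.toFinset) := by
          ext y
          simp only [Finset.mem_insert, Finset.mem_sdiff]
          tauto
        rw [this, Finset.card_insert_of_notMem (by simp)]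
      rw [e2]
      have e3 : Real.logb 2 (wE E h x) = -(2 * Real.logb 2 E.card) := by
        unfold wE
        rw [if_pos hxE, if_neg hxA, Pool.Agent.Y232.SP.WS.logb_inv_sq (by linarith)]
      rw [e3] at hstep
      push_cast
      linarith

/-- lower bound for the potential -/
theorem ps_lower {w : ℕ → ℝ} {δ : ℝ} (hδ : 0 < δ) (hw : ∀ a, 0 ≤ w a) (t : Tr) :
    (size t : ℝ) * Real.logb 2 δ ≤ ps w δ t := by
  induction t with
  | nil => simp [size, ps]
  | node a l r ihl ihr =>
    have h := logb_mono hδ (by have := wn hw (node a l r); linarith : δ ≤ wt w (node a l r) + δ)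
    simp only [size, ps]
    push_cast
    linarith

theorem wt_zero {E : Finset ℕ} {w : ℕ → ℝ} (h0 : ∀ a, a ∉ E → w a = 0) (t : Tr)
    (h : ¬ Meets E t) : wt w t = 0 := by
  induction t with
  | nil => simp [wt]
  | node a l r ihl ihr =>
    rw [meets_node] at h
    push Not at h
    simp only [wt]
    rw [h0 a h.1, ihl h.2.1, ihr h.2.2]
    simp

/-- upper bound for the potential -/
theorem ps_upper {E : Finset ℕ} {w : ℕ → ℝ} {δ B : ℝ} (hδ : 0 < δ) (hw : ∀ a, 0 ≤ w a)
    (h0 : ∀ a, a ∉ E → w a = 0) (t : Tr) (hB : Real.logb 2 (wt w t + δ) ≤ B) :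
    ps w δ t ≤ (size t : ℝ) * Real.logb 2 δ + (ancs E t : ℝ) * (B - Real.logb 2 δ) := by
  induction t with
  | nil => simp [size, ps, ancs]
  | node a l r ihl ihr =>
    have hl := ihl (le_trans (logb_mono (sp hδ hw l) (by
      have := hw a; have := wn hw r; simp only [wt]; linarith)) hB)
    have hr := ihr (le_trans (logb_mono (sp hδ hw r) (by
      have := hw a; have := wn hw l; simp only [wt]; linarith)) hB)
    by_cases hm : Meets E (node a l r)
    · rw [ancs_of_meets hm]
      simp only [size, ps]
      push_cast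
      nlinarith
    · have e : ancs E (node a l r) = 0 := ancs_not_meets hm
      have hm' := hm
      rw [meets_node] at hm'
      push Not at hm'
      have el : ancs E l = 0 := ancs_not_meets hm'.2.1
      have er : ancs E r = 0 := ancs_not_meets hm'.2.2
      rw [el] at hl
      rw [er] at hr
      rw [e]
      have e2 : wt w (node a l r) = 0 := wt_zero h0 _ hm
      simp only [ps]
      rw [e2]
      simp only [size]
      push_cast
      push_cast at hl hr
      rw [zero_add]
      nlinarith

theorem size_keys (t : Tr) : size t = (keys t).length := by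
  induction t with
  | nil => rfl
  | node a l r ihl ihr => simp only [size, keys, List.length_append, List.length_cons, ihl, ihr]; omega

theorem card_le_ancs (E : Finset ℕ) (t : Tr) : (E ∩ (keys t).toFinset).card ≤ ancs E t := by
  induction t with
  | nil => simp [keys]
  | node a l r ihl ihr =>
    by_cases hm : Meets E (node a l r)
    · rw [ancs_of_meets hm]
      have : E ∩ (keys (node a l r)).toFinset ⊆
          insert a ((E ∩ (keys l).toFinset) ∪ (E ∩ (keys r).toFinset)) := by
        intro y hy
        simp only [keys, Finset.mem_inter, List.mem_toFinset, List.mem_append, List.mem_cons] at hy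
        simp only [Finset.mem_insert, Finset.mem_union, Finset.mem_inter, List.mem_toFinset]
        tauto
      have h1 := Finset.card_le_card this
      have h2 := Finset.card_insert_le a ((E ∩ (keys l).toFinset) ∪ (E ∩ (keys r).toFinset))
      have h3 := Finset.card_union_le (E ∩ (keys l).toFinset) (E ∩ (keys r).toFinset)
      omega
    · have : E ∩ (keys (node a l r)).toFinset = ∅ := by
        rw [Finset.eq_empty_iff_forall_notMem]
        intro y hy
        rw [Finset.mem_inter, List.mem_toFinset] at hy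
        exact hm ⟨y, hy.2, hy.1⟩
      rw [this]
      simp

theorem after_keys (X : List ℕ) : ∀ S : Tr, IsBST S → (∀ x ∈ X, x ∈ keys S) →
    keys (after S X) = keys S := by
  induction X with
  | nil => intro S _ _; rfl
  | cons x X ih =>
    intro S hb hX
    have k1 : keys (splay x S) = keys S := (Pool.Agent.TH49.Spl.waccess (w := fun _ => 1)
      (fun _ => one_pos) hb (hX x (by simp))).1
    simp only [after]
    rw [ih (splay x S) (by unfold IsBST; rw [k1]; exact hb) (fun y hy => by
      rw [k1]; exact hX y (by simp [hy])), k1]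

theorem wsum_le' {S : Finset ℕ} (X : List ℕ) :
    ∀ h : List ℕ, (∀ y ∈ h, y ∈ S) → (∀ y ∈ X, y ∈ S) → wsum h X ≤ X.length * Real.logb 2 S.card := by
  induction X with
  | nil => intro h _ _; simp [wsum]
  | cons x X ih =>
    intro h hh hX
    have hx : x ∈ S := hX x (by simp)
    have h1 := ih (x :: h) (by
      intro y hy
      rcases List.mem_cons.1 hy with rfl | hy
      · exact hx
      · exact hh y hy) (fun y hy => hX y (by simp [hy]))
    have h2 : ws h x + 1 ≤ S.card := ws_lt' hh hx
    have h3 : Real.logb 2 ((ws h x : ℝ) + 1) ≤ Real.logb 2 S.card := by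
      refine Real.logb_le_logb_of_le (by norm_num) (by positivity) ?_
      exact_mod_cast h2
    simp only [wsum, List.length_cons]
    push_cast
    linarith

/-- The working set bound, with the additive term reduced to the touched part of the initial
tree. -/
theorem main {T : Tr} (hb : IsBST T) (X : List ℕ) (hX : ∀ x ∈ X, x ∈ keys T) :
    (costSplay T X : ℝ) ≤ 14 * X.length + 12 * wsum [] X +
      (6 + 16 * Real.logb 2 X.toFinset.card) * ancs X.toFinset T := by
  rcases X with _ | ⟨x0, X0⟩
  · simp [costSplay, wsum, ancs_not_meets (E := (∅ : Finset ℕ)) (t := T) (by rintro ⟨k, _, h⟩; simp at h)]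
  set X := x0 :: X0 with hXd
  set E := X.toFinset with hE
  have hx0 : x0 ∈ E := by rw [hE, hXd]; simp
  have hk : 0 < E.card := Finset.card_pos.2 ⟨x0, hx0⟩
  have hk' : (1 : ℝ) ≤ E.card := by exact_mod_cast hk
  have hd : 0 < dE E := by unfold dE; positivity
  have hL : (0 : ℝ) ≤ Real.logb 2 E.card := Real.logb_nonneg (by norm_num) hk'
  have h1 := run (E := E) X T [] hb (by simp) (fun x hx => List.mem_toFinset.2 hx) hX
  have hd1 : Real.logb 2 (dE E) = -(1 + 2 * Real.logb 2 E.card) := by
    unfold dE
    rw [one_div, Real.logb_inv, Real.logb_mul (by norm_num) (by positivity), Real.logb_pow,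
      Real.logb_self_eq_one (by norm_num)]
    push_cast
    ring
  have hlog : Real.logb 2 (wt (wE E []) T + dE E) ≤ 2 := by
    have h0 : dE E ≤ 1 := by
      unfold dE
      rw [div_le_one (by positivity)]
      nlinarith
    have h1 : Real.logb 2 (wt (wE E []) T + dE E) ≤ Real.logb 2 4 :=
      logb_mono (sp hd (wE_nonneg E []) T) (by have := wE_total E [] hb; linarith)
    exact h1.trans Pool.Agent.Y232.SP.WS.logb_four.le
  have hz : ∀ a, a ∉ E → wE E [] a = 0 := fun a ha => by unfold wE; rw [if_neg ha]
  have hT : ∃ a l r, T = node a l r := by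
    cases hTc : T with
    | nil => have := hX x0 (by rw [hXd]; simp); rw [hTc] at this; simp [keys] at this
    | node a l r => exact ⟨a, l, r, rfl⟩
  obtain ⟨a, l, r, hT⟩ := hT
  have hup : pr0 (wE E []) (dE E) T ≤ ((size T : ℝ) - 1) * Real.logb 2 (dE E) +
      (ancs E T : ℝ) * (2 - Real.logb 2 (dE E)) := by
    rw [hT] at hlog ⊢
    have hl := ps_upper (E := E) hd (wE_nonneg E []) hz l (le_trans (logb_mono (sp hd (wE_nonneg E []) l) (by
      have := wE_nonneg E [] a; have := wn (wE_nonneg E []) r; simp only [wt]; linarith)) hlog)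
    have hr := ps_upper (E := E) hd (wE_nonneg E []) hz r (le_trans (logb_mono (sp hd (wE_nonneg E []) r) (by
      have := wE_nonneg E [] a; have := wn (wE_nonneg E []) l; simp only [wt]; linarith)) hlog)
    have hA : ((ancs E l + ancs E r : ℕ) : ℝ) ≤ ancs E (node a l r) := by
      exact_mod_cast le_ancs E a l r
    push_cast at hA
    have hB : 0 ≤ 2 - Real.logb 2 (dE E) := by rw [hd1]; linarith
    have hC := mul_le_mul_of_nonneg_right hA hB
    simp only [pr0, size]
    push_cast
    linarith
  have hlow : ((size T : ℝ) - 1) * Real.logb 2 (dE E) ≤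
      pr0 (wE E (X.reverse ++ [])) (dE E) (after T X) := by
    have e1 : size (after T X) = size T := by rw [size_keys, size_keys, after_keys X T hb hX]
    have hA : ∃ b l' r', after T X = node b l' r' := by
      cases hc : after T X with
      | nil =>
        rw [hc, hT] at e1
        simp only [size] at e1
        omega
      | node b l' r' => exact ⟨b, l', r', rfl⟩
    obtain ⟨b, l', r', hA⟩ := hA
    rw [← e1, hA]
    have hl := ps_lower (w := wE E (X.reverse ++ [])) hd (wE_nonneg _ _) l'
    have hr := ps_lower (w := wE E (X.reverse ++ [])) hd (wE_nonneg _ _) r'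
    simp only [pr0, size]
    push_cast
    linarith
  have hc : ((X.toFinset \ ([] : List ℕ).toFinset).card : ℝ) ≤ ancs E T := by
    have h2 := card_le_ancs E T
    have h3 : E ∩ (keys T).toFinset = E := by
      apply Finset.inter_eq_left.2
      intro y hy
      rw [List.mem_toFinset]
      exact hX y (List.mem_toFinset.1 hy)
    rw [h3] at h2
    have h4 : X.toFinset \ ([] : List ℕ).toFinset = E := by simp [hE]
    rw [h4]
    exact_mod_cast h2
  have hc2 := mul_le_mul_of_nonneg_right hc hL
  rw [hd1] at hup hlow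
  nlinarith

end Pool.Agent.Q331.SPL
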